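import Pool.Agent.Helper78.DT.Goals

/-!
# Packet DT-BDP: the probability of the exceptional event
-/

namespace Pool.Agent.Helper15.DT

open Pool.Agent.Helper78.DT

open scoped Classical

theorem bdp (h : CloStmt) : BdpStmt := by
  intro V _ _ η k t g h0 h1 hk
  have key : ∀ l : ℕ, pr (fun x => NoSat (g.take l) x ∧
      ∃ T ∈ {T : Tm V | (∀ p ∈ T, p.1 ∈ vars g) ∧ T.card ≤ t ∧
        pr (fun y => Sat T y ∧ NoSat (g.take l) y) ≤ k}, Sat T x) ≤
      k ^ (1 - η) * (2 / η) ^ t := by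
    intro l
    exact h V η k t (NoSat (g.take l)) _ h0 h1 hk fun T hT => ⟨hT.2.1, hT.2.2⟩
  calc pr (Bad t k g)
      ≤ pr (fun x => ∃ l ∈ Finset.range (g.length + 1), NoSat (g.take l) x ∧
          ∃ T ∈ {T : Tm V | (∀ p ∈ T, p.1 ∈ vars g) ∧ T.card ≤ t ∧
            pr (fun y => Sat T y ∧ NoSat (g.take l) y) ≤ k}, Sat T x) := by
        refine pr_mono fun x hx => ?_
        obtain ⟨l, hl, hN, T, hT1, hT2, hT3, hT4⟩ := hx
        exact ⟨l, Finset.mem_range.mpr (Nat.lt_succ_of_le hl), hN, T, ⟨hT1, hT2, hT4⟩, hT3⟩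
    _ ≤ ∑ l ∈ Finset.range (g.length + 1), pr (fun x => NoSat (g.take l) x ∧
          ∃ T ∈ {T : Tm V | (∀ p ∈ T, p.1 ∈ vars g) ∧ T.card ≤ t ∧
            pr (fun y => Sat T y ∧ NoSat (g.take l) y) ≤ k}, Sat T x) :=
        pr_exists_le _ _
    _ ≤ ∑ _l ∈ Finset.range (g.length + 1), k ^ (1 - η) * (2 / η) ^ t :=
        Finset.sum_le_sum fun l _ => key l
    _ = (g.length + 1) * (k ^ (1 - η) * (2 / η) ^ t) := by
        rw [Finset.sum_const, Finset.card_range, nsmul_eq_mul]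
        push_cast
        ring

end Pool.Agent.Helper15.DT
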